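import Pool.Agent.Q14.ExtE

set_option autoImplicit false

/-!
# MP_2bf34e_al: asymptotic Hilbert series of generic ideals in exterior algebras
-/

namespace Pool.Agent.Results.MP_2bf34e_al.HilbertLimit

open ExteriorAlgebra PowerSeries Pool.Agent.Results.MP_a0e599_al.Main Pool.Agent.Q14.ExtA
  Pool.Agent.Q14.ExtB Pool.Agent.Q14.ExtC Pool.Agent.Q14.ExtD Pool.Agent.Q14.ExtE

universe u v

/-- The two-sided ideal `(f_1, …, f_r)` of the exterior algebra (as a subspace). -/
def idealOf {K : Type u} [Field K] {V : Type v} [AddCommGroup V] [Module K V] {r : ℕ}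
    (f : Fin r → ExteriorAlgebra K V) : Submodule K (ExteriorAlgebra K V) :=
  Submodule.span K {z | ∃ a i b, z = a * f i * b}

/-- The dimension of the degree `k` part of `⋀ V / (f_1, …, f_r)`. -/
noncomputable def quotDim {K : Type u} [Field K] {V : Type v} [AddCommGroup V] [Module K V] {r : ℕ}
    (f : Fin r → ExteriorAlgebra K V) (k : ℕ) : ℕ :=
  Module.finrank K (↥(⋀[K]^k V) ⧸ (idealOf f).comap (⋀[K]^k V).subtype)

/-- `(f_1, …, f_r)` is a tuple of forms of degrees `d_1, …, d_r`. -/
def IsTuple {K : Type u} [Field K] {V : Type v} [AddCommGroup V] [Module K V] {r : ℕ}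
    (d : Fin r → ℕ) (f : Fin r → ExteriorAlgebra K V) : Prop :=
  ∀ i, f i ∈ ⋀[K]^(d i) V

/-- A generic tuple: every graded piece of the quotient has its minimal dimension. -/
def IsGen {K : Type u} [Field K] {V : Type v} [AddCommGroup V] [Module K V] {r : ℕ}
    (d : Fin r → ℕ) (f : Fin r → ExteriorAlgebra K V) : Prop :=
  IsTuple d f ∧ ∀ g : Fin r → ExteriorAlgebra K V, IsTuple d g → ∀ k, quotDim f k ≤ quotDim g k

/-- `P(t) = ∏ (1 - (-1)^{d_i} t^{d_i})^{(-1)^{d_i}}`: every even `d_i` contributes `1 - t^{d_i}`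
and every odd `d_i` contributes `(1 + t^{d_i})^{-1}`. -/
noncomputable def P {r : ℕ} (d : Fin r → ℕ) : PowerSeries ℤ :=
  ∏ i, if Even (d i) then 1 - X ^ (d i) else invOfUnit (1 + X ^ (d i)) 1

/-- The Hilbert series `q(t)` of the quotient by `(f_1, …, f_r)`. -/
noncomputable def hilb {K : Type u} [Field K] {V : Type v} [AddCommGroup V] [Module K V] {r : ℕ}
    (f : Fin r → ExteriorAlgebra K V) : PowerSeries ℤ :=
  PowerSeries.mk fun k => (quotDim f k : ℤ)

/-- The limit statement for the degrees `d_1, …, d_r` over the field `K`: for every `k` the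
coefficient of `t^k` in `q_n(t) / (1 + t)^n` equals that in `P(t)` for all large `n`. -/
def LimitHolds (K : Type u) [Field K] {r : ℕ} (d : Fin r → ℕ) : Prop :=
  ∀ k, ∃ N, ∀ n ≥ N, ∀ f : Fin r → ExteriorAlgebra K (Fin n → K), IsGen d f →
    coeff k (hilb f * invOfUnit ((1 + X) ^ n) 1) = coeff k (P d)

section charzero

variable {K : Type u} [Field K]

lemma agree [CharZero K] {r : ℕ} (d : Fin r → ℕ) (hd : ∀ i, 1 ≤ d i) (k n : ℕ)
    (hn : r * (2 * k + 1) * (∑ i, d i) ≤ n)
    {V : Type v} [AddCommGroup V] [Module K V] (e : Module.Basis (Fin n) K V)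
    (f : Fin r → ExteriorAlgebra K V) (hf : IsGen d f) (j : ℕ) (hj : j ≤ k) :
    (quotDim f j : ℤ) = coeff j (P d * (1 + X) ^ n) := by
  obtain ⟨T, hT, hdis⟩ := exists_blocks d (2 * k + 1) n hn
  have hT' : IsTuple d (fun i => bsum e (T i)) := by
    intro i
    unfold bsum
    refine Submodule.sum_mem _ fun b _ => ?_
    rw [← hT i b]; exact mono_mem _
  apply le_antisymm
  · have h1 := special_hq e T hd hT hdis j (by omega)
    have h2 := hf.2 _ hT' j
    have h3 : (quotDim f j : ℤ) ≤ hq (fun i => bsum e (T i)) j := by exact_mod_cast h2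
    exact h3.trans h1.le
  · exact lower_bound e T hd hT hdis f hf.1 j (by omega)

end charzero

lemma inv_mul' (n : ℕ) : ((1 + X) ^ n : PowerSeries ℤ) * invOfUnit ((1 + X) ^ n) 1 = 1 := by
  apply mul_invOfUnit
  simp

/-- two series that agree up to degree `k` after multiplication with a unit -/
lemma coeff_mul_congr {a b c : PowerSeries ℤ} {k : ℕ} (h : ∀ j ≤ k, coeff j a = coeff j b) :
    coeff k (a * c) = coeff k (b * c) := by
  rw [coeff_mul, coeff_mul]
  refine Finset.sum_congr rfl fun p hp => ?_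
  have hp' : p.1 + p.2 = k := Finset.HasAntidiagonal.mem_antidiagonal.1 hp
  rw [h p.1 (by omega)]

section charp

variable {K : Type u} [Field K]

lemma mono_sq {n : ℕ} {V : Type v} [AddCommGroup V] [Module K V] (e : Module.Basis (Fin n) K V)
    (S : Finset (Fin n)) (hS : S.card = 2) : mono e S * mono e S = 0 := by
  obtain ⟨a, ha⟩ : S.Nonempty := by
    rw [← Finset.card_pos]; omega
  exact lmono_mul_eq_zero (isEig_mono (e := e) S) _ (by rwa [Finset.mem_sort]) ha

lemma pow_p_zero {n : ℕ} {V : Type v} [AddCommGroup V] [Module K V] (e : Module.Basis (Fin n) K V)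
    (p : ℕ) [hp : Fact p.Prime] [CharP K p] {f : ExteriorAlgebra K V} (hf : f ∈ ⋀[K]^2 V) :
    f ^ p = 0 := by
  have hchar : CharP (ExteriorAlgebra K V) p :=
    charP_of_injective_algebraMap (algebraMap K (ExteriorAlgebra K V)).injective p
  have key : ∀ s : Finset (Finset (Fin n)),
      (∑ S ∈ s, (BB e).repr f S • (if S.card = 2 then mono e S else 0)) ^ p = 0 := by
    intro s
    induction s using Finset.induction_on with
    | empty => rw [Finset.sum_empty, zero_pow hp.out.ne_zero]
    | insert S s hS ih =>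
      rw [Finset.sum_insert hS, add_pow_char_of_commute, ih, add_zero]
      · by_cases h : S.card = 2
        · rw [if_pos h, smul_pow]
          have h2 : 2 ≤ p := hp.out.two_le
          obtain ⟨m, rfl⟩ : ∃ m, p = m + 2 := ⟨p - 2, by omega⟩
          rw [pow_add (mono e S), pow_two, mono_sq e S h, mul_zero, smul_zero]
        · rw [if_neg h, smul_zero, zero_pow hp.out.ne_zero]
      · have hm : ∀ S : Finset (Fin n), (BB e).repr f S • (if S.card = 2 then mono e S else 0) ∈
            ⋀[K]^2 V := by
          intro S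
          refine Submodule.smul_mem _ _ ?_
          split_ifs with h
          · rw [← h]; exact mono_mem _
          · exact Submodule.zero_mem _
        have h1 := hom_comm e (hm S) (Submodule.sum_mem _ fun S (_ : S ∈ s) => hm S)
        rw [show ((-1 : K)) ^ (2 * 2) = 1 by norm_num, one_smul] at h1
        exact h1
  have h1 := key Finset.univ
  rw [← proj_apply, proj_of_mem 2 hf, if_pos rfl] at h1
  exact h1

/-- the degree used for the counterexample in positive characteristic -/
def two : Fin 1 → ℕ := fun _ => 2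

lemma not_limit (p : ℕ) [hp : Fact p.Prime] [CharP K p] [Infinite K] :
    ¬ LimitHolds K two := by
  intro hL
  choose N hN using hL
  let n := ∑ k ∈ Finset.range (2 * p + 1), N k
  have hn : ∀ k ≤ 2 * p, N k ≤ n := fun k hk =>
    Finset.single_le_sum (f := N) (fun _ _ => Nat.zero_le _) (Finset.mem_range.2 (by omega))
  let e : Module.Basis (Fin n) K (Fin n → K) := Pi.basisFun K (Fin n)
  obtain ⟨f, hf⟩ := exists_generic e two
  have hf0 : ∀ i, f i ∈ ⋀[K]^(two i) (Fin n → K) := hf.1
  have h1 : ∀ k ≤ 2 * p, coeff k (hilb f * invOfUnit ((1 + X) ^ n) 1) = coeff k (P two) :=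
    fun k hk => hN k n (hn k hk) f hf
  have h2 : ∀ k ≤ 2 * p, (hq f k : ℤ) = cc two n k := by
    intro k hk
    have h3 := coeff_mul_congr (a := hilb f * invOfUnit ((1 + X) ^ n) 1) (b := P two)
      (c := (1 + X) ^ n) (k := k) (fun j hj => h1 j (by omega))
    rw [mul_assoc, mul_comm (invOfUnit _ _), inv_mul', mul_one] at h3
    have h4 : coeff k (hilb f) = (quotDim f k : ℤ) := by
      unfold hilb; rw [coeff_mk]
    rw [h4] at h3
    exact h3
  -- injectivity of the multiplication
  have hinj : ∀ s, s + 2 ≤ 2 * p → ∀ x ∈ ⋀[K]^s (Fin n → K), x * f 0 = 0 → x = 0 := by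
    intro s hs x hx hx0
    have h5 := hq_add_rho e hf0 (s + 2)
    have h6 := rho_add e hf0 s
    have h7 : rho (ini f) (s + 2) = 0 := by
      have h8 := hq_zero e (ini f) (s + 2)
      have h9 := hq_add_rho e (d := ini two) (f := ini f) (fun i => i.elim0) (s + 2)
      omega
    have h10 := h2 (s + 2) hs
    have h11 := cc_even two n s (by decide)
    change cc two n (s + 2) = cc (ini two) n (s + 2) - cc (ini two) n s at h11
    rw [cc_zero, cc_zero] at h11
    change rho f (s + 2) + _ = rho (ini f) (s + 2) + _ at h6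
    have h12 : Module.finrank K (LinearMap.ker (phi f s)) = 0 := by omega
    have hfin : Module.Finite K (ExteriorAlgebra K (Fin n → K)) := fin_ext e
    rw [Submodule.finrank_eq_zero] at h12
    have h13 : (⟨x, hx⟩ : ↥(⋀[K]^s (Fin n → K))) ∈ LinearMap.ker (phi f s) := by
      rw [mem_ker_phi]
      change x * f 0 ∈ _
      rw [hx0]; exact Submodule.zero_mem _
    rw [h12, Submodule.mem_bot] at h13
    exact congrArg Subtype.val h13
  have hpow : ∀ k ≤ p, f 0 ^ k ≠ 0 := by
    intro k
    induction k with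
    | zero => intro _; rw [pow_zero]; exact one_ne_zero
    | succ k ih =>
      intro hk h0
      have hmem : f 0 ^ k ∈ ⋀[K]^(2 * k) (Fin n → K) := by
        clear ih hk h0
        induction k with
        | zero => rw [pow_zero, mul_zero]; exact SetLike.GradedOne.one_mem
        | succ k ih => rw [pow_succ, mul_add]; exact mul_mem ih (hf0 0)
      exact ih (by omega) (hinj (2 * k) (by omega) _ hmem (by rw [← pow_succ]; exact h0))
  exact hpow p le_rfl (pow_p_zero e p (hf0 0))

end charp

/-- **Main theorem.** Let `K` be an infinite field (of any characteristic).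
* Generic tuples exist for all `n`, `r`, `d_i`.
* The limit statement holds for all `r ≥ 1` and all `d_1, …, d_r ≥ 1` if and only if `K` has
  characteristic zero.
* In characteristic zero the equality of coefficients up to degree `k` holds as soon as
  `n ≥ r (2k+1) ∑ d_i`.
* In positive characteristic the limit statement already fails for one quadratic form. -/
theorem result (K : Type u) [Field K] [Infinite K] :
    (∀ (r : ℕ) (d : Fin r → ℕ) (n : ℕ), ∃ f : Fin r → ExteriorAlgebra K (Fin n → K), IsGen d f) ∧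
    ((∀ (r : ℕ) (d : Fin r → ℕ), 1 ≤ r → (∀ i, 1 ≤ d i) → LimitHolds K d) ↔ CharZero K) ∧
    (CharZero K → ∀ (r : ℕ) (d : Fin r → ℕ), (∀ i, 1 ≤ d i) → ∀ k n,
      r * (2 * k + 1) * (∑ i, d i) ≤ n →
      ∀ f : Fin r → ExteriorAlgebra K (Fin n → K), IsGen d f → ∀ j ≤ k,
        (quotDim f j : ℤ) = coeff j (P d * (1 + X) ^ n)) ∧
    (¬ CharZero K → ¬ LimitHolds K (fun _ : Fin 1 => 2)) := by
  have hneg : ¬ CharZero K → ¬ LimitHolds K (fun _ : Fin 1 => 2) := by
    intro h0
    obtain ⟨p, hp⟩ := CharP.exists K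
    have hp0 : p ≠ 0 := by
      rintro rfl
      exact h0 (CharP.charP_to_charZero K)
    have hprime : Fact p.Prime := ⟨(CharP.char_is_prime_or_zero K p).resolve_right hp0⟩
    exact not_limit p
  have hpos : CharZero K → ∀ (r : ℕ) (d : Fin r → ℕ), (∀ i, 1 ≤ d i) → ∀ k n,
      r * (2 * k + 1) * (∑ i, d i) ≤ n →
      ∀ f : Fin r → ExteriorAlgebra K (Fin n → K), IsGen d f → ∀ j ≤ k,
        (quotDim f j : ℤ) = coeff j (P d * (1 + X) ^ n) :=
    fun _ r d hd k n hn f hf j hj => agree d hd k n hn (Pi.basisFun K (Fin n)) f hf j hj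
  refine ⟨fun r d n => exists_generic (Pi.basisFun K (Fin n)) d, ⟨?_, ?_⟩, hpos, hneg⟩
  · intro h
    by_contra h0
    exact hneg h0 (h 1 _ le_rfl (fun _ => by norm_num))
  · intro h0 r d _ hd k
    refine ⟨r * (2 * k + 1) * (∑ i, d i), fun n hn f hf => ?_⟩
    have h3 := coeff_mul_congr (a := hilb f) (b := P d * (1 + X) ^ n)
      (c := invOfUnit ((1 + X) ^ n) 1) (k := k) (fun j hj => by
        unfold hilb
        rw [coeff_mk]
        exact hpos h0 r d hd k n hn f hf j hj)
    rw [h3, mul_assoc, inv_mul', mul_one]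

end Pool.Agent.Results.MP_2bf34e_al.HilbertLimit
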